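import Pool.Agent.Helper39.Trans.GainP
import Pool.Agent.Helper11.Trans.Final
import Pool.Agent.Helper11.Trans.StripBound
import Pool.Agent.Helper17.Trans.CertCore
import Pool.Agent.Helper27.Trans.T1
import Pool.Agent.Helper31.Trans.Counts
import Pool.Agent.Helper35.Trans.H
import Pool.Agent.Helper45.Trans.ClassB
import Pool.Agent.Helper74.Tr.AV
import Pool.Agent.Helper79.Trans.GP
import Pool.Agent.Helper85.Trans.MainB
import Pool.Agent.Helper88.Trans.DS3
import Pool.Agent.Helper88.Trans.Rec
import Pool.Agent.Helper96.Tr.Zero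

/-!
# MP_549fdb_co, Q1: the boundary complexity of spaces of hyperplane transversals of polytopes

The definitions are in `Pool/Agent/Helper39/Trans/Poly.lean` (families of polytopes, transversals,
linear faces, `F`) and `Pool/Agent/Helper39/Trans/Defs.lean` (`invAck`). The dimension is
`d = D + 1`.
-/

namespace Pool.Agent.Results.MP_549fdb_co.TransversalUpper

open Pool.Agent.Helper39.Trans

/-- The upper bound `F_d(n) = O(n^(d-1) α(n))` for every dimension `d = D + 1 ≥ 2`: the boundary of
the space of hyperplane transversals of a finite family of convex polytopes with `n ≥ 2` vertices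
in total has finitely many linear faces, at most `C n^(d-1) α(n)` with `C` depending only
on `d`. -/
theorem result : ∀ D : ℕ, 1 ≤ D → ∃ C : ℕ, ∀ n : ℕ, 2 ≤ n →
    (∀ A : Polys D, A.nvert = n → A.faces.Finite ∧ A.faces.ncard ≤ C * n ^ D * invAck n) ∧
    F D n ≤ C * n ^ D * invAck n := by
  intro D hD
  have hmain : ∀ D : ℕ, 1 ≤ D → MainBound (D + 1) (Fin (D + 1) × Bool) := by
    intro D hD
    have hL := linFacts (D + 1) (Fin (D + 1) × Bool)
    obtain ⟨h1, h2, h3⟩ := Pool.Agent.Helper31.Trans.counts (D + 1) (Fin (D + 1) × Bool) hL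
      (Pool.Agent.Helper17.Trans.certCore (D + 1) (Fin (D + 1) × Bool) hL)
    exact Pool.Agent.Helper85.Trans.mainBound (D + 1) (Fin (D + 1) × Bool) (by omega) hL h1 h2 h3
      (Pool.Agent.Helper11.Trans.stripBound _ _ Pool.Agent.Helper88.Trans.ds3 hL
        (edgeExit _ _) h1)
      (zeroBound _ _ hL h1) (Pool.Agent.Helper45.Trans.classBound _ _ hL h3) (gain _ _ h3)
      Pool.Agent.Helper88.Trans.recursion Pool.Agent.Helper74.Tr.averaging
  obtain ⟨C, hC⟩ := Pool.Agent.Helper11.Trans.FinalT2.finalPacket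
    Pool.Agent.Helper79.Trans.existsGP Pool.Agent.Helper35.Trans.transfer
    Pool.Agent.Helper27.Trans.facesTypes hmain D hD
  refine ⟨C, fun n hn => ?_⟩
  have hA : ∀ A : Polys D, A.nvert = n → A.faces.Finite ∧
      A.faces.ncard ≤ C * n ^ D * invAck n := by
    rintro A rfl
    exact hC A hn
  refine ⟨hA, ?_⟩
  rcases Set.eq_empty_or_nonempty {k | ∃ A : Polys D, A.nvert = n ∧ k = A.faces.ncard} with h | h
  · rw [F, h, csSup_empty]
    exact Nat.zero_le _
  · refine csSup_le h ?_
    rintro k ⟨A, hAn, rfl⟩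
    exact (hA A hAn).2

end Pool.Agent.Results.MP_549fdb_co.TransversalUpper
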